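import Mathlib

set_option autoImplicit false

open Polynomial Matrix

namespace Pool.Agent.WordPSL2

variable {K : Type*} [Field K]

/-- A nonconstant polynomial over an algebraically closed field of characteristic zero takes one of
the values `2`, `-2` at a point where its derivative does not vanish. -/
theorem exists_simple [IsAlgClosed K] [CharZero K] (P : K[X]) (hP : 0 < P.natDegree) :
    ∃ t : K, (P.eval t) ^ 2 = 4 ∧ P.derivative.eval t ≠ 0 := by
  by_contra hcon
  push Not at hcon
  set Q : K[X] := P ^ 2 - C 4 with hQ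
  have hdegQ : Q.natDegree = 2 * P.natDegree := by
    rw [hQ, natDegree_sub_C, natDegree_pow]
  have hQ0 : Q ≠ 0 := by
    intro h
    rw [h, natDegree_zero] at hdegQ
    omega
  have hP'0 : P.derivative ≠ 0 := by
    intro h
    have := derivative_eq_zero.mp h
    omega
  have hP'2 : P.derivative ^ 2 ≠ 0 := pow_ne_zero _ hP'0
  have hQ' : Q.derivative = C 2 * P * P.derivative := by
    rw [hQ, derivative_sub, derivative_C, sub_zero, derivative_pow]
    simp
  have hP0 : P ≠ 0 := by
    intro h
    rw [h, natDegree_zero] at hP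
    omega
  have hdvd : Q ∣ P.derivative ^ 2 := by
    refine (IsAlgClosed.splits Q).dvd_of_roots_le_roots hQ0 ?_
    classical
    rw [Multiset.le_iff_count]
    intro t
    rw [count_roots, count_roots]
    by_cases ht : Q.IsRoot t
    · have h4 : (P.eval t) ^ 2 = 4 := by
        have h := ht
        rw [hQ, IsRoot.def, eval_sub, eval_pow, eval_C, sub_eq_zero] at h
        exact h
      have hd := hcon t h4
      have hPt : P.eval t ≠ 0 := by
        intro h
        rw [h] at h4
        norm_num at h4
      have h1 : Q.derivative.rootMultiplicity t = Q.rootMultiplicity t - 1 :=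
        derivative_rootMultiplicity_of_root ht
      have h2 : Q.derivative.rootMultiplicity t = P.derivative.rootMultiplicity t := by
        have hne : C 2 * P * P.derivative ≠ 0 := by
          refine mul_ne_zero (mul_ne_zero ?_ hP0) hP'0
          simp
        rw [hQ', rootMultiplicity_mul hne, rootMultiplicity_mul (left_ne_zero_of_mul hne)]
        have e1 : rootMultiplicity t P = 0 := rootMultiplicity_eq_zero hPt
        rw [e1, rootMultiplicity_C]
        simp
      have h3 : 0 < P.derivative.rootMultiplicity t := by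
        rw [rootMultiplicity_pos hP'0]
        exact hd
      rw [pow_two, rootMultiplicity_mul (by rw [← pow_two]; exact hP'2)]
      omega
    · rw [rootMultiplicity_eq_zero ht]
      exact Nat.zero_le _
  have hle := natDegree_le_of_dvd hdvd hP'2
  rw [natDegree_pow, hdegQ] at hle
  have := natDegree_derivative_lt (p := P) (by omega)
  omega

/-- If a polynomial matrix of determinant one is `1` or `-1` at `t`, the derivative of its trace
vanishes at `t`. -/
theorem deriv_trace_eq_zero (W : SpecialLinearGroup (Fin 2) K[X]) (t e : K) (he : e ^ 2 = 1)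
    (h00 : (W 0 0).eval t = e) (h11 : (W 1 1).eval t = e)
    (h01 : (W 0 1).eval t = 0) (h10 : (W 1 0).eval t = 0) :
    (W 0 0 + W 1 1).derivative.eval t = 0 := by
  have hdet : W 0 0 * W 1 1 - W 0 1 * W 1 0 = 1 := by
    have := W.det_coe
    rwa [det_fin_two] at this
  have hd := congrArg (fun p => (derivative p).eval t) hdet
  simp only [derivative_sub, derivative_mul, eval_sub, eval_add, eval_mul, h00, h11, h01, h10,
    derivative_one, eval_zero] at hd
  have : e * ((W 0 0).derivative.eval t + (W 1 1).derivative.eval t) = 0 := by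
    linear_combination hd
  have hene : e ≠ 0 := by
    rintro rfl
    norm_num at he
  rcases mul_eq_zero.mp this with h | h
  · exact absurd h hene
  · rw [derivative_add, eval_add]
    exact h

/-- The companion matrix with trace `s` and determinant one. -/
def comp (s : K) : SpecialLinearGroup (Fin 2) K :=
  ⟨!![0, -1; 1, s], by simp [det_fin_two]⟩

/-- A matrix of determinant one as an element of `SL₂`. -/
def mkSL {R : Type*} [CommRing R] (a b c d : R) (h : a * d - b * c = 1) :
    SpecialLinearGroup (Fin 2) R :=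
  ⟨!![a, b; c, d], by simpa [det_fin_two] using h⟩

theorem coe_mkSL {R : Type*} [CommRing R] (a b c d : R) (h : a * d - b * c = 1) :
    ((mkSL a b c d h : SpecialLinearGroup (Fin 2) R) : Matrix (Fin 2) (Fin 2) R)
      = !![a, b; c, d] := rfl

theorem coe_comp (s : K) :
    ((comp s : SpecialLinearGroup (Fin 2) K) : Matrix (Fin 2) (Fin 2) K)
      = !![0, -1; 1, s] := rfl

theorem exists_of_vec [IsAlgClosed K] (M : SpecialLinearGroup (Fin 2) K) (x y : K)
    (hv : x * (M 1 0 * x + M 1 1 * y) - (M 0 0 * x + M 0 1 * y) * y ≠ 0) :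
    ∃ g : SpecialLinearGroup (Fin 2) K, M * g = g * comp (M 0 0 + M 1 1) := by
  set D := x * (M 1 0 * x + M 1 1 * y) - (M 0 0 * x + M 0 1 * y) * y with hD
  obtain ⟨r, hr⟩ := IsAlgClosed.exists_pow_nat_eq D (n := 2) (by norm_num)
  have hr0 : r ≠ 0 := by
    rintro rfl
    apply hv
    rw [← hr]
    norm_num
  have hdet : M 0 0 * M 1 1 - M 0 1 * M 1 0 = 1 := by
    have := M.det_coe
    rwa [det_fin_two] at this
  have h2 : x / r * ((M 1 0 * x + M 1 1 * y) / r) - (M 0 0 * x + M 0 1 * y) / r * (y / r) = 1 := by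
    have h3 : x / r * ((M 1 0 * x + M 1 1 * y) / r) - (M 0 0 * x + M 0 1 * y) / r * (y / r)
        = D / r ^ 2 := by
      rw [hD]; field_simp
    rw [h3, hr, div_self hv]
  refine ⟨mkSL (x / r) ((M 0 0 * x + M 0 1 * y) / r) (y / r) ((M 1 0 * x + M 1 1 * y) / r) h2, ?_⟩
  have hM : (M : Matrix (Fin 2) (Fin 2) K) = !![M 0 0, M 0 1; M 1 0, M 1 1] :=
    Matrix.eta_fin_two _
  have key : (M : Matrix (Fin 2) (Fin 2) K) *
      !![x / r, (M 0 0 * x + M 0 1 * y) / r; y / r, (M 1 0 * x + M 1 1 * y) / r] =
      !![x / r, (M 0 0 * x + M 0 1 * y) / r; y / r, (M 1 0 * x + M 1 1 * y) / r] *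
      !![0, -1; 1, M 0 0 + M 1 1] := by
    ext i j
    fin_cases i <;> fin_cases j <;>
      simp [Matrix.mul_apply, Fin.sum_univ_two]
    · field_simp
    · field_simp
      linear_combination (-x) * hdet
    · field_simp
    · field_simp
      linear_combination (-y) * hdet
  exact Subtype.ext key

theorem exists_conj_comp [IsAlgClosed K] (M : SpecialLinearGroup (Fin 2) K)
    (h : ¬ (M 0 1 = 0 ∧ M 1 0 = 0 ∧ M 0 0 = M 1 1)) :
    ∃ g : SpecialLinearGroup (Fin 2) K, M * g = g * comp (M 0 0 + M 1 1) := by
  by_cases h1 : M 1 0 = 0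
  · by_cases h2 : M 0 1 = 0
    · refine exists_of_vec M 1 1 ?_
      rw [h1, h2]
      intro h3
      apply h
      refine ⟨h2, h1, ?_⟩
      linear_combination -h3
    · refine exists_of_vec M 0 1 ?_
      intro h3
      apply h2
      linear_combination -h3
  · refine exists_of_vec M 1 0 ?_
    intro h3
    apply h1
    linear_combination h3

/-- Two nonscalar elements of `SL₂(K)` with the same trace are conjugate. -/
theorem exists_conj [IsAlgClosed K] (M N : SpecialLinearGroup (Fin 2) K)
    (hM : ¬ (M 0 1 = 0 ∧ M 1 0 = 0 ∧ M 0 0 = M 1 1))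
    (hN : ¬ (N 0 1 = 0 ∧ N 1 0 = 0 ∧ N 0 0 = N 1 1))
    (ht : M 0 0 + M 1 1 = N 0 0 + N 1 1) :
    ∃ h : SpecialLinearGroup (Fin 2) K, M = h * N * h⁻¹ := by
  obtain ⟨g, hg⟩ := exists_conj_comp M hM
  obtain ⟨k, hk⟩ := exists_conj_comp N hN
  rw [ht] at hg
  refine ⟨g * k⁻¹, ?_⟩
  have e1 : M = g * comp (N 0 0 + N 1 1) * g⁻¹ := by
    rw [← hg]; group
  have e2 : comp (N 0 0 + N 1 1) = k⁻¹ * N * k := by
    rw [mul_assoc, hk]; group
  rw [e1, e2]
  group

end Pool.Agent.WordPSL2
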