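import Mathlib
import Pool.Agent.WordPSL2.Basic

set_option autoImplicit false

open Polynomial Matrix

namespace Pool.Agent.WordPSL2

variable {K : Type*} [Field K]

/-- The parameter attached to a letter: `2 i` for a generator and `2 i + 1` for its inverse. -/
def th (a : ℕ × Bool) : ℕ := if a.2 then 2 * a.1 else 2 * a.1 + 1

/-- The matrix over `K[X]` attached to the `n`-th generator. -/
noncomputable def genM (K : Type*) [Field K] (n : ℕ) : SpecialLinearGroup (Fin 2) K[X] :=
  mkSL (C (2 * n + 1 : K) * X + C (4 * n + 1 : K)) (-X - C 2)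
    (C (2 * n * (2 * n + 1) : K) * X + C ((2 * n + 1) ^ 2 + (2 * n) ^ 2 : K))
    (-(C (2 * n : K) * X) - C (4 * n + 1 : K)) (by
      simp only [map_add, map_mul, map_pow, map_one, map_ofNat]
      ring)

/-- The matrix attached to a letter. -/
noncomputable def letM (K : Type*) [Field K] (a : ℕ × Bool) : SpecialLinearGroup (Fin 2) K[X] :=
  cond a.2 (genM K a.1) (genM K a.1)⁻¹

/-- The leading coefficient matrix of a letter. -/
def leadM (K : Type*) [Field K] (a : ℕ × Bool) : Matrix (Fin 2) (Fin 2) K :=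
  cond a.2 (!![(2 * a.1 + 1 : K), -1; 2 * a.1 * (2 * a.1 + 1), -(2 * a.1)])
    (!![-(2 * a.1 : K), 1; -(2 * a.1 * (2 * a.1 + 1)), 2 * a.1 + 1])

theorem letM_deg (a : ℕ × Bool) (i j : Fin 2) :
    ((letM K a : Matrix (Fin 2) (Fin 2) K[X]) i j).natDegree ≤ 1 ∧
    ((letM K a : Matrix (Fin 2) (Fin 2) K[X]) i j).coeff 1 = leadM K a i j := by
  obtain ⟨n, b⟩ := a
  cases b
  · have h : ((letM K (n, false) : SpecialLinearGroup (Fin 2) K[X]) : Matrix (Fin 2) (Fin 2) K[X])
      = !![-(C (2 * n : K) * X) - C (4 * n + 1 : K), -(-X - C 2);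
        -(C (2 * n * (2 * n + 1) : K) * X + C ((2 * n + 1) ^ 2 + (2 * n) ^ 2 : K)),
        C (2 * n + 1 : K) * X + C (4 * n + 1 : K)] := by
      have : ((letM K (n, false) : SpecialLinearGroup (Fin 2) K[X]) : Matrix (Fin 2) (Fin 2) K[X])
        = adjugate ((genM K n : SpecialLinearGroup (Fin 2) K[X]) : Matrix (Fin 2) (Fin 2) K[X]) :=
        rfl
      rw [this, genM, coe_mkSL, adjugate_fin_two_of]
    rw [h]
    fin_cases i <;> fin_cases j <;> simp only [leadM] <;> constructor
    · simp; compute_degree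
    · simp [coeff_X, coeff_C, -map_mul, -map_add]
    · simp
    · simp [coeff_X, coeff_C, -map_mul, -map_add]
    · simp; compute_degree
    · simp [coeff_X, coeff_C, -map_mul, -map_add]
    · simp; compute_degree
    · simp [coeff_X, coeff_C, -map_mul, -map_add]
  · have h : ((letM K (n, true) : SpecialLinearGroup (Fin 2) K[X]) : Matrix (Fin 2) (Fin 2) K[X])
      = !![C (2 * n + 1 : K) * X + C (4 * n + 1 : K), -X - C 2;
        C (2 * n * (2 * n + 1) : K) * X + C ((2 * n + 1) ^ 2 + (2 * n) ^ 2 : K),
        -(C (2 * n : K) * X) - C (4 * n + 1 : K)] := rfl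
    rw [h]
    fin_cases i <;> fin_cases j <;> simp only [leadM] <;> constructor
    · simp; compute_degree
    · simp [coeff_X, coeff_C, -map_mul, -map_add]
    · simp
    · simp [coeff_X, coeff_C, -map_mul, -map_add]
    · simp; compute_degree
    · simp [coeff_X, coeff_C, -map_mul, -map_add]
    · simp; compute_degree
    · simp [coeff_X, coeff_C, -map_mul, -map_add]

/-- Column factor of the leading matrix. -/
def uvec (K : Type*) [Field K] (a : ℕ × Bool) : Fin 2 → K :=
  cond a.2 ![1, 2 * a.1] ![1, 2 * a.1 + 1]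

/-- Row factor of the leading matrix. -/
def vvec (K : Type*) [Field K] (a : ℕ × Bool) : Fin 2 → K :=
  cond a.2 ![2 * a.1 + 1, -1] ![-(2 * a.1), 1]

theorem leadM_eq (a : ℕ × Bool) : leadM K a = vecMulVec (uvec K a) (vvec K a) := by
  obtain ⟨n, b⟩ := a
  cases b
  · ext i j
    fin_cases i <;> fin_cases j <;> simp [leadM, uvec, vvec, vecMulVec_apply]
    ring
  · ext i j
    fin_cases i <;> fin_cases j <;> simp [leadM, uvec, vvec, vecMulVec_apply]

theorem dot_ne_zero [CharZero K] (a b : ℕ × Bool) (h : a.1 = b.1 → a.2 = b.2) :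
    vvec K a ⬝ᵥ uvec K b ≠ 0 := by
  obtain ⟨n, s⟩ := a
  obtain ⟨k, t⟩ := b
  cases s <;> cases t <;> simp [vvec, uvec, dotProduct, Fin.sum_univ_two] at h ⊢
  · intro h2
    have h3 : ((2 * k + 1 : ℕ) : K) = ((2 * n : ℕ) : K) := by
      push_cast
      linear_combination h2
    have := Nat.cast_injective h3
    omega
  · intro h2
    have h3 : ((2 * k : ℕ) : K) = ((2 * n : ℕ) : K) := by
      push_cast
      linear_combination h2
    have := Nat.cast_injective h3
    omega
  · intro h2
    have h3 : ((2 * n + 1 : ℕ) : K) = ((2 * k + 1 : ℕ) : K) := by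
      push_cast
      linear_combination h2
    have := Nat.cast_injective h3
    omega
  · intro h2
    have h3 : ((2 * n + 1 : ℕ) : K) = ((2 * k : ℕ) : K) := by
      push_cast
      linear_combination h2
    have := Nat.cast_injective h3
    omega

/-- Product of the matrices of the letters of a word. -/
noncomputable def prodM (K : Type*) [Field K] (l : List (ℕ × Bool)) :
    SpecialLinearGroup (Fin 2) K[X] :=
  (l.map (letM K)).prod

/-- Product of the leading matrices of the letters of a word. -/
noncomputable def prodLead (K : Type*) [Field K] (l : List (ℕ × Bool)) :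
    Matrix (Fin 2) (Fin 2) K :=
  (l.map (leadM K)).prod

theorem prodM_deg (l : List (ℕ × Bool)) (i j : Fin 2) :
    ((prodM K l : Matrix (Fin 2) (Fin 2) K[X]) i j).natDegree ≤ l.length ∧
    ((prodM K l : Matrix (Fin 2) (Fin 2) K[X]) i j).coeff l.length = prodLead K l i j := by
  induction l generalizing i j with
  | nil =>
    have h1 : ((prodM K [] : SpecialLinearGroup (Fin 2) K[X]) : Matrix (Fin 2) (Fin 2) K[X])
      = 1 := rfl
    have h2 : prodLead K [] = 1 := rfl
    rw [h1, h2]
    fin_cases i <;> fin_cases j <;> simp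
  | cons a l ih =>
    have h1 : ((prodM K (a :: l) : SpecialLinearGroup (Fin 2) K[X]) : Matrix (Fin 2) (Fin 2) K[X])
      = (letM K a : Matrix (Fin 2) (Fin 2) K[X]) * (prodM K l : Matrix (Fin 2) (Fin 2) K[X]) := by
      have : prodM K (a :: l) = letM K a * prodM K l := by
        simp [prodM]
      rw [this]
      rfl
    have h2 : prodLead K (a :: l) = leadM K a * prodLead K l := by
      simp [prodLead]
    rw [h1, h2, Matrix.mul_apply, Matrix.mul_apply, List.length_cons, Nat.add_comm]
    constructor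
    · refine natDegree_sum_le_of_forall_le _ _ fun k _ => ?_
      exact natDegree_mul_le_of_le (letM_deg a i k).1 (ih k j).1
    · rw [finsetSum_coeff]
      refine Finset.sum_congr rfl fun k _ => ?_
      rw [coeff_mul_add_eq_of_natDegree_le (letM_deg a i k).1 (ih k j).1, (letM_deg a i k).2, (ih k j).2]

theorem prodLead_eq [CharZero K] (a : ℕ × Bool) (l : List (ℕ × Bool))
    (h : List.IsChain (fun a b : ℕ × Bool => a.1 = b.1 → a.2 = b.2) (a :: l)) :
    ∃ c : K, c ≠ 0 ∧ prodLead K (a :: l) =
      c • vecMulVec (uvec K a) (vvec K ((a :: l).getLast (by simp))) := by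
  induction l generalizing a with
  | nil => exact ⟨1, one_ne_zero, by simp [prodLead, leadM_eq]⟩
  | cons b l ih =>
    rw [List.isChain_cons_cons] at h
    obtain ⟨c, hc, hc2⟩ := ih b h.2
    refine ⟨c * (vvec K a ⬝ᵥ uvec K b), mul_ne_zero hc (dot_ne_zero a b h.1), ?_⟩
    have h2 : prodLead K (a :: b :: l) = leadM K a * prodLead K (b :: l) := by
      simp [prodLead]
    have h3 : (a :: b :: l).getLast (by simp) = (b :: l).getLast (by simp) :=
      List.getLast_cons (by simp)
    rw [h2, hc2, leadM_eq, Matrix.mul_smul, vecMulVec_mul_vecMulVec, h3]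
    simp [vecMulVec_smul, smul_smul]

theorem trace_coeff_ne_zero [CharZero K] (l : List (ℕ × Bool)) (hl : l ≠ [])
    (h : List.IsChain (fun a b : ℕ × Bool => a.1 = b.1 → a.2 = b.2) l)
    (h' : ∀ a ∈ l.getLast?, ∀ b ∈ l.head?, a.1 = b.1 → a.2 = b.2) :
    prodLead K l 0 0 + prodLead K l 1 1 ≠ 0 := by
  match l, hl with
  | a :: l, _ =>
    obtain ⟨c, hc, hc2⟩ := prodLead_eq (K := K) a l h
    have h3 := h' ((a :: l).getLast (by simp)) (by simp [List.getLast?_eq_getLast_of_ne_nil])
      a (by simp)
    have h4 := dot_ne_zero (K := K) _ _ h3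
    rw [hc2]
    simp only [Matrix.smul_apply, vecMulVec_apply, smul_eq_mul]
    simp only [dotProduct, Fin.sum_univ_two] at h4
    intro h5
    apply mul_ne_zero hc h4
    linear_combination h5

end Pool.Agent.WordPSL2
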