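import Mathlib
import Pool.Agent.WordPSL2.Basic
import Pool.Agent.WordPSL2.Family

set_option autoImplicit false

open Polynomial Matrix

namespace Pool.Agent.WordPSL2

variable {K : Type*} [Field K]

theorem trace_conj {R : Type*} [CommRing R] (g A : SpecialLinearGroup (Fin 2) R) :
    (g * A * g⁻¹) 0 0 + (g * A * g⁻¹) 1 1 = A 0 0 + A 1 1 := by
  have h : Matrix.trace ((g : Matrix (Fin 2) (Fin 2) R) * (A : Matrix (Fin 2) (Fin 2) R) *
      ((g⁻¹ : SpecialLinearGroup (Fin 2) R) :
      Matrix (Fin 2) (Fin 2) R)) = Matrix.trace (A : Matrix (Fin 2) (Fin 2) R) := by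
    rw [Matrix.trace_mul_cycle]
    have : ((g⁻¹ : SpecialLinearGroup (Fin 2) R) : Matrix (Fin 2) (Fin 2) R) *
        (g : Matrix (Fin 2) (Fin 2) R) = 1 := by
      have h1 : g⁻¹ * g = 1 := inv_mul_cancel g
      exact congrArg Subtype.val h1
    rw [this, one_mul]
  rw [Matrix.trace_fin_two, Matrix.trace_fin_two] at h
  exact h

/-- The value of the word `w` at the standard polynomial family. -/
noncomputable def wordM (K : Type*) [Field K] {m : ℕ} (w : FreeGroup (Fin m)) :
    SpecialLinearGroup (Fin 2) K[X] :=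
  FreeGroup.lift (fun i : Fin m => genM K i.val) w

theorem wordM_mk {m : ℕ} (L : List (Fin m × Bool)) :
    wordM K (FreeGroup.mk L) = prodM K (L.map fun a => (a.1.val, a.2)) := by
  rw [wordM, FreeGroup.lift_mk, prodM, List.map_map]
  rfl

theorem natDegree_trace_pos [CharZero K] {m : ℕ} (w : FreeGroup (Fin m)) (hw : w ≠ 1) :
    0 < ((wordM K w) 0 0 + (wordM K w) 1 1).natDegree := by
  classical
  set L := FreeGroup.reduceCyclically w.toWord with hL
  set cj := FreeGroup.reduceCyclically.conjugator w.toWord with hcj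
  have hdecomp : w = FreeGroup.mk cj * FreeGroup.mk L * (FreeGroup.mk cj)⁻¹ := by
    have h := FreeGroup.reduceCyclically.conj_conjugator_reduceCyclically w.toWord
    have h2 : FreeGroup.mk (cj ++ L ++ FreeGroup.invRev cj) = FreeGroup.mk w.toWord := by
      rw [h]
    rw [FreeGroup.mk_toWord, ← FreeGroup.mul_mk, ← FreeGroup.mul_mk, ← FreeGroup.inv_mk] at h2
    exact h2.symm
  have hcr : FreeGroup.IsCyclicallyReduced L :=
    FreeGroup.reduceCyclically.isCyclicallyReduced FreeGroup.isReduced_toWord
  have hLne : L ≠ [] := by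
    intro h
    apply hw
    rw [hdecomp, h, ← FreeGroup.one_eq_mk]
    group
  have hW : wordM K w = wordM K (FreeGroup.mk cj) * wordM K (FreeGroup.mk L) *
      (wordM K (FreeGroup.mk cj))⁻¹ := by
    conv_lhs => rw [hdecomp]
    simp only [wordM, map_mul, map_inv]
  rw [hW, trace_conj, wordM_mk]
  set l : List (ℕ × Bool) := L.map fun a => (a.1.val, a.2) with hl
  have hlne : l ≠ [] := by
    simpa [hl] using hLne
  have hchain : List.IsChain (fun a b : ℕ × Bool => a.1 = b.1 → a.2 = b.2) l := by
    rw [hl, List.isChain_map]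
    refine List.IsChain.imp ?_ hcr.1
    intro a b hab h
    exact hab (Fin.ext h)
  have hends : ∀ a ∈ l.getLast?, ∀ b ∈ l.head?, a.1 = b.1 → a.2 = b.2 := by
    intro a ha b hb hab
    rw [hl, List.getLast?_map, Option.mem_map] at ha
    rw [hl, List.head?_map, Option.mem_map] at hb
    obtain ⟨a', ha', rfl⟩ := ha
    obtain ⟨b', hb', rfl⟩ := hb
    exact hcr.2 a' ha' b' hb' (Fin.ext hab)
  have hne := trace_coeff_ne_zero (K := K) l hlne hchain hends
  have hpos : 0 < l.length := List.length_pos_iff.mpr hlne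
  refine lt_of_lt_of_le hpos (le_natDegree_of_ne_zero ?_)
  rw [coeff_add, (prodM_deg l 0 0).2, (prodM_deg l 1 1).2]
  exact hne

/-- The word evaluated at the specialisation of the standard family at `t`. -/
noncomputable def wordAt (K : Type*) [Field K] {m : ℕ} (w : FreeGroup (Fin m)) (t : K) :
    SpecialLinearGroup (Fin 2) K :=
  FreeGroup.lift (fun i : Fin m => SpecialLinearGroup.map (evalRingHom t) (genM K i.val)) w

theorem wordAt_apply {m : ℕ} (w : FreeGroup (Fin m)) (t : K) (i j : Fin 2) :
    wordAt K w t i j = (wordM K w i j).eval t := by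
  have h : wordAt K w t = SpecialLinearGroup.map (evalRingHom t) (wordM K w) := by
    rw [wordAt, wordM]
    have : (FreeGroup.lift (fun i : Fin m =>
        SpecialLinearGroup.map (evalRingHom t) (genM K i.val))) =
        (SpecialLinearGroup.map (n := Fin 2) (evalRingHom t)).comp
          (FreeGroup.lift (fun i : Fin m => genM K i.val)) := by
      ext i
      simp
    rw [this]
    rfl
  rw [h]
  rfl

/-- For every nontrivial word and every nonscalar `A ∈ SL₂(K)`, a conjugate of `A` or `-A` is a
value of the word. -/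
theorem exists_value [IsAlgClosed K] [CharZero K] {m : ℕ} (w : FreeGroup (Fin m)) (hw : w ≠ 1)
    (A : SpecialLinearGroup (Fin 2) K) (hA : ¬ (A 0 1 = 0 ∧ A 1 0 = 0 ∧ A 0 0 = A 1 1)) :
    ∃ (t : K) (h : SpecialLinearGroup (Fin 2) K),
      A = h * wordAt K w t * h⁻¹ ∨ A = -(h * wordAt K w t * h⁻¹) := by
  set P := (wordM K w) 0 0 + (wordM K w) 1 1 with hP
  have hdeg : 0 < P.natDegree := natDegree_trace_pos w hw
  have htr : ∀ t, wordAt K w t 0 0 + wordAt K w t 1 1 = P.eval t := by
    intro t
    rw [wordAt_apply, wordAt_apply, hP, eval_add]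
  have hdet : ∀ M : SpecialLinearGroup (Fin 2) K, M 0 0 * M 1 1 - M 0 1 * M 1 0 = 1 := by
    intro M
    have := M.det_coe
    rwa [det_fin_two] at this
  by_cases h4 : (A 0 0 + A 1 1) ^ 2 = 4
  · obtain ⟨t, ht, ht'⟩ := exists_simple P hdeg
    have hns : ¬ (wordAt K w t 0 1 = 0 ∧ wordAt K w t 1 0 = 0 ∧
        wordAt K w t 0 0 = wordAt K w t 1 1) := by
      rintro ⟨h01, h10, hd⟩
      apply ht'
      have hd1 := hdet (wordAt K w t)
      rw [h01, h10, ← hd] at hd1
      refine deriv_trace_eq_zero (wordM K w) t (wordAt K w t 0 0) ?_ ?_ ?_ ?_ ?_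
      · linear_combination hd1
      · exact (wordAt_apply w t 0 0).symm
      · rw [hd]; exact (wordAt_apply w t 1 1).symm
      · rw [← wordAt_apply]; exact h01
      · rw [← wordAt_apply]; exact h10
    have hsq : (A 0 0 + A 1 1 - P.eval t) * (A 0 0 + A 1 1 + P.eval t) = 0 := by
      linear_combination h4 - ht
    rcases mul_eq_zero.mp hsq with h | h
    · obtain ⟨k, hk⟩ := exists_conj A (wordAt K w t) hA hns (by rw [htr]; linear_combination h)
      exact ⟨t, k, Or.inl hk⟩
    · have hns' : ¬ ((-wordAt K w t) 0 1 = 0 ∧ (-wordAt K w t) 1 0 = 0 ∧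
          (-wordAt K w t) 0 0 = (-wordAt K w t) 1 1) := by
        rintro ⟨h01, h10, hd⟩
        apply hns
        simp only [SpecialLinearGroup.coe_neg, Matrix.neg_apply, neg_eq_zero, neg_inj] at h01 h10 hd
        exact ⟨h01, h10, hd⟩
      obtain ⟨k, hk⟩ := exists_conj A (-wordAt K w t) hA hns' (by
        simp only [SpecialLinearGroup.coe_neg, Matrix.neg_apply]
        have := htr t
        linear_combination h + this)
      refine ⟨t, k, Or.inr ?_⟩
      rw [hk]
      simp
  · obtain ⟨t, ht⟩ := IsAlgClosed.exists_root (P - C (A 0 0 + A 1 1)) (by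
      intro h
      have h2 : (P - C (A 0 0 + A 1 1)).natDegree = 0 := natDegree_eq_of_degree_eq_some h
      rw [natDegree_sub_C] at h2
      omega)
    rw [IsRoot.def, eval_sub, eval_C, sub_eq_zero] at ht
    have hns : ¬ (wordAt K w t 0 1 = 0 ∧ wordAt K w t 1 0 = 0 ∧
        wordAt K w t 0 0 = wordAt K w t 1 1) := by
      rintro ⟨h01, h10, hd⟩
      apply h4
      have hd1 := hdet (wordAt K w t)
      have h5 := htr t
      rw [ht] at h5
      rw [h01, h10] at hd1
      rw [← h5, ← hd]
      rw [← hd] at hd1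
      linear_combination 4 * hd1
    obtain ⟨k, hk⟩ := exists_conj A (wordAt K w t) hA hns (by rw [htr, ht])
    exact ⟨t, k, Or.inl hk⟩

theorem map_lift {G H : Type*} [Group G] [Group H] {m : ℕ} (f : G →* H) (x : Fin m → G)
    (w : FreeGroup (Fin m)) :
    FreeGroup.lift (fun i => f (x i)) w = f (FreeGroup.lift x w) := by
  have : FreeGroup.lift (fun i => f (x i)) = f.comp (FreeGroup.lift x) := by
    ext i
    simp
  rw [this]
  rfl

/-- Every nontrivial word map on `PSL₂` over an algebraically closed field of characteristic zero is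
surjective. -/
theorem surjective_word [IsAlgClosed K] [CharZero K] {m : ℕ} (w : FreeGroup (Fin m))
    (hw : w ≠ 1) :
    Function.Surjective
        (fun x : Fin m → (SpecialLinearGroup (Fin 2) K ⧸
            Subgroup.center (SpecialLinearGroup (Fin 2) K)) =>
          FreeGroup.lift x w) := by
  intro q
  obtain ⟨A, rfl⟩ := QuotientGroup.mk_surjective q
  by_cases hA : A 0 1 = 0 ∧ A 1 0 = 0 ∧ A 0 0 = A 1 1
  · refine ⟨fun _ => 1, ?_⟩
    have hc : A ∈ Subgroup.center (SpecialLinearGroup (Fin 2) K) := by
      rw [Matrix.SpecialLinearGroup.mem_center_iff]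
      refine ⟨A 0 0, ?_, ?_⟩
      · have := A.det_coe
        rw [det_fin_two, hA.1, ← hA.2.2] at this
        simp only [Fintype.card_fin]
        linear_combination this
      · ext i j
        fin_cases i <;> fin_cases j
        · simp
        · simp [hA.1]
        · simp [hA.2.1]
        · simp [hA.2.2]
    have h1 : ((A : SpecialLinearGroup (Fin 2) K) : SpecialLinearGroup (Fin 2) K ⧸
            Subgroup.center (SpecialLinearGroup (Fin 2) K)) = 1 :=
      (QuotientGroup.eq_one_iff A).mpr hc
    have h2 : FreeGroup.lift (fun _ : Fin m => (1 : SpecialLinearGroup (Fin 2) K ⧸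
            Subgroup.center (SpecialLinearGroup (Fin 2) K))) = 1 := by
      ext i
      simp
    show FreeGroup.lift (fun _ : Fin m => (1 : SpecialLinearGroup (Fin 2) K ⧸
            Subgroup.center (SpecialLinearGroup (Fin 2) K))) w = _
    rw [h1, h2]
    rfl
  · obtain ⟨t, h, hAh⟩ := exists_value w hw A hA
    refine ⟨fun i => QuotientGroup.mk' (Subgroup.center (SpecialLinearGroup (Fin 2) K))
      (MulAut.conj h (SpecialLinearGroup.map (evalRingHom t) (genM K i.val))), ?_⟩
    show FreeGroup.lift (fun i : Fin m =>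
      QuotientGroup.mk' (Subgroup.center (SpecialLinearGroup (Fin 2) K))
      (MulAut.conj h (SpecialLinearGroup.map (evalRingHom t) (genM K i.val)))) w = _
    rw [map_lift (QuotientGroup.mk' (Subgroup.center (SpecialLinearGroup (Fin 2) K)))]
    have h3 : FreeGroup.lift (fun i : Fin m =>
        (MulAut.conj h (SpecialLinearGroup.map (evalRingHom t) (genM K i.val)))) w
        = h * wordAt K w t * h⁻¹ := by
      have := map_lift (MulAut.conj h).toMonoidHom
        (fun i : Fin m => SpecialLinearGroup.map (evalRingHom t) (genM K i.val)) w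
      exact this
    rw [h3]
    rcases hAh with hAh | hAh
    · rw [← hAh]
      rfl
    · rw [QuotientGroup.mk'_apply, QuotientGroup.eq]
      have h4 : (h * wordAt K w t * h⁻¹)⁻¹ * A = -1 := by
        conv_lhs => rw [hAh]
        rw [mul_neg, inv_mul_cancel]
      rw [h4]
      rw [Subgroup.mem_center_iff]
      intro g
      simp

end Pool.Agent.WordPSL2
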